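import Pool.Agent.Helper60_AK.StmtF

set_option autoImplicit false

/-!
Squad AK, module F4: dbar of the integrals I_k[g].
-/

namespace Pool.Agent.AK.H69

open Complex Set MeasureTheory

lemma dzb_eq (i : Fin 2) (u : C2 → ℂ) (p : C2) : dzb i u p =
    (1 / 2 : ℂ) * (fderiv ℝ u p (Pi.single i 1) + I * fderiv ℝ u p (Pi.single i I)) := by
  simp [dzb, smul_eq_mul]

lemma dzb_mul {u v : C2 → ℂ} {p : C2} (i : Fin 2) (hu : DifferentiableAt ℝ u p)
    (hv : DifferentiableAt ℝ v p) :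
    dzb i (fun q => u q * v q) p = dzb i u p * v p + u p * dzb i v p := by
  rw [dzb_eq, dzb_eq, dzb_eq, fderiv_fun_mul hu hv]
  simp only [ContinuousLinearMap.add_apply, ContinuousLinearMap.smul_apply, smul_eq_mul]
  ring

lemma dzb_const_mul {u : C2 → ℂ} {p : C2} (i : Fin 2) (c : ℂ) (hu : DifferentiableAt ℝ u p) :
    dzb i (fun q => c * u q) p = c * dzb i u p := by
  rw [dzb_eq, dzb_eq, fderiv_const_mul hu]
  simp only [ContinuousLinearMap.smul_apply, smul_eq_mul]
  ring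

/-- the chain rule for a holomorphic outer function -/
lemma dzb_comp_sub {g : ℂ → ℂ} (hg : Differentiable ℂ g) {c0 : C2 → ℂ} {p : C2} (i : Fin 2)
    (hc : DifferentiableAt ℝ c0 p) (L : ℂ) :
    DifferentiableAt ℝ (fun q => g (L - c0 q)) p ∧
    dzb i (fun q => g (L - c0 q)) p = - (deriv g (L - c0 p) * dzb i c0 p) := by
  have h1 : HasFDerivAt (fun q => L - c0 q) (-(fderiv ℝ c0 p)) p :=
    hc.hasFDerivAt.const_sub L
  have h2 : HasFDerivAt g ((ContinuousLinearMap.toSpanSingleton ℂ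
      (deriv g (L - c0 p))).restrictScalars ℝ) (L - c0 p) :=
    ((hg (L - c0 p)).hasDerivAt.hasFDerivAt).restrictScalars ℝ
  have h3 := h2.comp p h1
  refine ⟨h3.differentiableAt, ?_⟩
  have h4 : fderiv ℝ (fun q => g (L - c0 q)) p = ((ContinuousLinearMap.toSpanSingleton ℂ
      (deriv g (L - c0 p))).restrictScalars ℝ).comp (-(fderiv ℝ c0 p)) := h3.fderiv
  rw [dzb_eq, dzb_eq, h4]
  simp
  ring

/-- Module F4. -/
theorem f4 (h1a : F1aStmt) (h1b : F1bStmt) (h4 : L4Stmt) : F4Stmt := by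
  intro Ω ρ f k0 B V t0 c2 hA c0 hc0 k g hg ε hε hεt p hp i
  obtain ⟨U, hUo, hVU, hcU⟩ := hc0
  have hρ : ContDiff ℝ SM ρ := hA.dom.smooth
  have hΩ : IsOpen Ω := by
    rw [hA.dom.eq]
    exact isOpen_lt hρ.continuous continuous_const
  obtain ⟨hFo, -, -, hF, -⟩ := h1a Ω ρ f hΩ hρ hA.bf.hol
  have hVo : IsOpen (Veps ρ V ε) :=
    hA.geo.opn.inter (isOpen_lt hρ.continuous continuous_const)
  have ht1 : t0 ≤ 1 := hA.geo.t0le
  have ht0 : 0 < t0 := hA.geo.t0pos
  set a := Real.log ε with ha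
  set b := Real.log (t0 / ε) with hb
  have hab : a ≤ b := by
    apply Real.log_le_log hε
    rw [le_div_iff₀ hε]
    nlinarith
  -- the points of the integration interval
  have hT : ∀ L ∈ Icc a b, ε ^ 2 ≤ ε * Real.exp L ∧ ε * Real.exp L ≤ t0 := by
    intro L hL
    have e1 : ε ≤ Real.exp L := by
      have := Real.exp_le_exp.2 hL.1
      rwa [ha, Real.exp_log hε] at this
    have e2 : Real.exp L ≤ t0 / ε := by
      have := Real.exp_le_exp.2 hL.2
      rwa [hb, Real.exp_log (by positivity)] at this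
    constructor
    · nlinarith
    · rw [le_div_iff₀ hε] at e2
      linarith
  have hdom : ∀ q ∈ Veps ρ V ε, ∀ L ∈ Icc a b, (q, ε * Real.exp L) ∈ FDom Ω ρ := by
    intro q hq L hL
    obtain ⟨t1, t2⟩ := hT L hL
    have hqc : q ∈ closure V := subset_closure hq.1
    refine ⟨hA.geo.g2ne q hqc, ?_⟩
    have hpos : 0 < ε * Real.exp L := by positivity
    have h1 := hA.geo.disc q hqc (ε * Real.exp L) hpos t2 (by linarith [hq.2]) 0 (by
      simp only [norm_zero]
      exact mul_nonneg hA.geo.c2pos.le (Real.sqrt_nonneg _))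
    rw [zero_smul, add_zero] at h1
    rw [hA.dom.eq]
    show ρ (q + ((ε * Real.exp L : ℝ) : ℂ) • nu ρ q) < 0
    linarith
  -- the integrand
  set H : C2 → ℝ → ℂ := fun x L => Fk ρ f k x (ε * Real.exp L) * g ((L : ℂ) - c0 x) with hH
  set O : Set (C2 × ℝ) := {x | x.1 ∈ U ∧ (x.1, ε * Real.exp x.2) ∈ FDom Ω ρ} with hO
  have hmap : Continuous (fun x : C2 × ℝ => (x.1, ε * Real.exp x.2)) := by fun_prop
  have hmapC : ContDiff ℝ SM (fun x : C2 × ℝ => (x.1, ε * Real.exp x.2)) :=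
    contDiff_fst.prodMk (contDiff_const.mul (Real.contDiff_exp.comp contDiff_snd))
  have hOo : IsOpen O := (hUo.preimage continuous_fst).inter (hFo.preimage hmap)
  have hVO : Veps ρ V ε ×ˢ Icc a b ⊆ O := by
    rintro ⟨q, L⟩ ⟨hq, hL⟩
    exact ⟨hVU (subset_closure hq.1), hdom q hq L hL⟩
  have hgR : ContDiff ℝ SM g := (hg.contDiff (n := SM)).restrict_scalars ℝ
  have hHC : ContDiffOn ℝ ((1 : ℕ) : WithTop ℕ∞) (fun x : C2 × ℝ => H x.1 x.2) O := by
    have c1 : ContDiffOn ℝ ((1 : ℕ) : WithTop ℕ∞)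
        (fun x : C2 × ℝ => Fk ρ f k x.1 (ε * Real.exp x.2)) O :=
      ((hF k).comp hmapC.contDiffOn (fun x hx => hx.2)).of_le (by norm_num)
    have c2' : ContDiffOn ℝ ((1 : ℕ) : WithTop ℕ∞) (fun x : C2 × ℝ => ((x.2 : ℝ) : ℂ) - c0 x.1) O :=
      ((Complex.ofRealCLM.contDiff.comp contDiff_snd).contDiffOn).sub
        (hcU.comp contDiff_fst.contDiffOn (fun x hx => hx.1))
    exact c1.mul ((hgR.of_le (by norm_num)).comp_contDiffOn c2')
  obtain ⟨d1, -, d3⟩ := h4 (Veps ρ V ε) a b H O 1 hVo hab hOo hVO hHC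
  have hIk : Ik ρ f c0 t0 ε k g = fun q => (ε : ℂ) ^ k * ∫ L in a..b, H q L := rfl
  have hdiff : DifferentiableAt ℝ (fun q => ∫ L in a..b, H q L) p :=
    (d1.contDiffAt (hVo.mem_nhds hp)).differentiableAt (by norm_num)
  rw [hIk, dzb_const_mul i _ hdiff, d3 le_rfl p hp i]
  -- the derivative of the integrand
  have hpU : p ∈ U := hVU (subset_closure hp.1)
  have hc0p : DifferentiableAt ℝ c0 p :=
    (hcU.contDiffAt (hUo.mem_nhds hpU)).differentiableAt (by norm_num)
  -- one variable functions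
  set W : Set ℝ := {L | (p, ε * Real.exp L) ∈ FDom Ω ρ} with hW
  have hWo : IsOpen W := hFo.preimage (by fun_prop : Continuous fun L : ℝ => (p, ε * Real.exp L))
  have habW : Icc a b ⊆ W := fun L hL => hdom p hp L hL
  have huC : ∀ m, ContDiffOn ℝ SM (fun L => Fk ρ f m p (ε * Real.exp L)) W := by
    intro m
    exact (hF m).comp ((contDiff_const.prodMk (contDiff_const.mul Real.contDiff_exp)).contDiffOn)
      (fun L hL => hL)
  have hFt : ∀ m, ∀ L ∈ W, DifferentiableAt ℝ (fun s => Fk ρ f m p s) (ε * Real.exp L) := by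
    intro m L hL
    have h1 : ContDiffAt ℝ SM (fun x : C2 × ℝ => Fk ρ f m x.1 x.2) (p, ε * Real.exp L) :=
      (hF m).contDiffAt (hFo.mem_nhds hL)
    have h2 : DifferentiableAt ℝ (fun x : C2 × ℝ => Fk ρ f m x.1 x.2) (p, ε * Real.exp L) :=
      h1.differentiableAt (by simp)
    have h3 : DifferentiableAt ℝ (fun s : ℝ => ((p, s) : C2 × ℝ)) (ε * Real.exp L) :=
      (differentiableAt_const p).prodMk differentiableAt_id
    exact h2.comp (ε * Real.exp L) h3
  have hu : ∀ m, ∀ L ∈ W, HasDerivAt (fun L => Fk ρ f m p (ε * Real.exp L))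
      (((ε * Real.exp L : ℝ) : ℂ) * deriv (fun s => Fk ρ f m p s) (ε * Real.exp L)) L := by
    intro m L hL
    have h1 := (hFt m L hL).hasDerivAt
    have h2 : HasDerivAt (fun L : ℝ => ε * Real.exp L) (ε * Real.exp L) L :=
      (Real.hasDerivAt_exp L).const_mul ε
    have h3 := h1.scomp L h2
    rw [Complex.real_smul] at h3
    exact h3
  have hucont : ∀ m, ContinuousOn (fun L => Fk ρ f m p (ε * Real.exp L)) (Icc a b) := fun m =>
    (huC m).continuousOn.mono habW
  have hdcont : ∀ m, ContinuousOn (fun L : ℝ => ((ε * Real.exp L : ℝ) : ℂ) *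
      deriv (fun s => Fk ρ f m p s) (ε * Real.exp L)) (Icc a b) := by
    intro m
    have h1 : ContinuousOn (deriv (fun L => Fk ρ f m p (ε * Real.exp L))) W :=
      (huC m).continuousOn_deriv_of_isOpen hWo (by simp)
    refine (h1.mono habW).congr fun L hL => ?_
    exact ((hu m L (habW hL)).deriv).symm
  have hdcont' : ∀ m, ContinuousOn (fun L : ℝ =>
      deriv (fun s => Fk ρ f m p s) (ε * Real.exp L)) (Icc a b) := by
    intro m
    have h1 : Continuous (fun L : ℝ => (((ε * Real.exp L : ℝ) : ℂ))⁻¹) := by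
      refine Continuous.inv₀ (by fun_prop) fun L => ?_
      have : (0 : ℝ) < ε * Real.exp L := by positivity
      exact_mod_cast this.ne'
    refine (h1.continuousOn.mul (hdcont m)).congr fun L _ => ?_
    have : (0 : ℝ) < ε * Real.exp L := by positivity
    have h2 : (((ε * Real.exp L : ℝ) : ℂ)) ≠ 0 := by exact_mod_cast this.ne'
    exact (inv_mul_cancel_left₀ h2 _).symm
  have hgc : ∀ G : ℂ → ℂ, Differentiable ℂ G →
      Continuous (fun L : ℝ => G ((L : ℂ) - c0 p)) := fun G hG =>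
    hG.continuous.comp (by fun_prop)
  have hgd : ∀ G : ℂ → ℂ, Differentiable ℂ G → ∀ L : ℝ,
      HasDerivAt (fun L : ℝ => G ((L : ℂ) - c0 p)) (deriv G ((L : ℂ) - c0 p)) L := by
    intro G hG L
    have h1 : HasDerivAt (fun z : ℂ => G (z - c0 p)) (deriv G ((L : ℂ) - c0 p)) (L : ℂ) := by
      have := (hG ((L : ℂ) - c0 p)).hasDerivAt
      exact this.comp_sub_const (L : ℂ) (c0 p)
    exact h1.comp_ofReal
  have hderiv : ∀ G : ℂ → ℂ, Differentiable ℂ G → Differentiable ℂ (deriv G) := fun G hG =>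
    (hG.contDiff (n := 2)).differentiable_deriv_two
  -- integration by parts
  have parts : ∀ (m : ℕ) (G : ℂ → ℂ), Differentiable ℂ G →
      ∫ L in a..b, (((ε * Real.exp L : ℝ) : ℂ) *
        deriv (fun s => Fk ρ f m p s) (ε * Real.exp L)) * G ((L : ℂ) - c0 p) =
      (Fk ρ f m p (ε * Real.exp b) * G ((b : ℂ) - c0 p) -
        Fk ρ f m p (ε * Real.exp a) * G ((a : ℂ) - c0 p)) -
      ∫ L in a..b, Fk ρ f m p (ε * Real.exp L) * deriv G ((L : ℂ) - c0 p) := by
    intro m G hG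
    have huIcc : uIcc a b = Icc a b := uIcc_of_le hab
    have h1 := intervalIntegral.integral_deriv_mul_eq_sub
      (u := fun L => Fk ρ f m p (ε * Real.exp L)) (v := fun L : ℝ => G ((L : ℂ) - c0 p))
      (u' := fun L => ((ε * Real.exp L : ℝ) : ℂ) * deriv (fun s => Fk ρ f m p s) (ε * Real.exp L))
      (v' := fun L => deriv G ((L : ℂ) - c0 p)) (a := a) (b := b)
      (fun L hL => hu m L (habW (huIcc ▸ hL))) (fun L _ => hgd G hG L)
      ((hdcont m).intervalIntegrable_of_Icc hab)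
      ((hgc _ (hderiv G hG)).intervalIntegrable _ _)
    have i1 : IntervalIntegrable (fun L : ℝ => (((ε * Real.exp L : ℝ) : ℂ) *
        deriv (fun s => Fk ρ f m p s) (ε * Real.exp L)) * G ((L : ℂ) - c0 p)) volume a b :=
      ((hdcont m).mul (hgc G hG).continuousOn).intervalIntegrable_of_Icc hab
    have i2 : IntervalIntegrable (fun L : ℝ => Fk ρ f m p (ε * Real.exp L) *
        deriv G ((L : ℂ) - c0 p)) volume a b :=
      ((hucont m).mul (hgc _ (hderiv G hG)).continuousOn).intervalIntegrable_of_Icc hab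
    rw [intervalIntegral.integral_add i1 i2] at h1
    linear_combination h1
  -- the integrand of the derivative
  have hint : ∀ L ∈ Icc a b, dzb i (fun x => H x L) p =
      fA ρ i p * ((((ε * Real.exp L : ℝ) : ℂ) * deriv (fun s => Fk ρ f k p s) (ε * Real.exp L)) *
        g ((L : ℂ) - c0 p)) +
      fB ρ i p * (ε * exp (c0 p) * (Fk ρ f (k + 1) p (ε * Real.exp L) *
        (exp ((L : ℂ) - c0 p) * g ((L : ℂ) - c0 p)))) +
      (k : ℂ) * fC ρ i p * ((ε : ℂ)⁻¹ * exp (-c0 p) * ((((ε * Real.exp L : ℝ) : ℂ) *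
        deriv (fun s => Fk ρ f (k - 1) p s) (ε * Real.exp L)) *
          (exp (-((L : ℂ) - c0 p)) * g ((L : ℂ) - c0 p)))) +
      (k : ℂ) * fE ρ i p * (Fk ρ f k p (ε * Real.exp L) * g ((L : ℂ) - c0 p)) -
      dzb i c0 p * (Fk ρ f k p (ε * Real.exp L) * deriv g ((L : ℂ) - c0 p)) := by
    intro L hL
    have hLd := hdom p hp L hL
    have e1 : DifferentiableAt ℝ (fun x => Fk ρ f k x (ε * Real.exp L)) p := by
      have h1 : ContDiffAt ℝ SM (fun x : C2 × ℝ => Fk ρ f k x.1 x.2) (p, ε * Real.exp L) :=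
        (hF k).contDiffAt (hFo.mem_nhds hLd)
      have h2 : DifferentiableAt ℝ (fun x : C2 × ℝ => Fk ρ f k x.1 x.2) (p, ε * Real.exp L) :=
        h1.differentiableAt (by simp)
      have h3 : DifferentiableAt ℝ (fun x : C2 => ((x, ε * Real.exp L) : C2 × ℝ)) p :=
        differentiableAt_id.prodMk (differentiableAt_const _)
      exact h2.comp p h3
    obtain ⟨e2, e3⟩ := dzb_comp_sub hg i hc0p (L : ℂ)
    rw [hH]
    simp only
    rw [dzb_mul i e1 e2, e3, h1b Ω ρ f hΩ hρ hA.bf.hol k p (ε * Real.exp L) hLd i]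
    have hεc : (ε : ℂ) ≠ 0 := by exact_mod_cast hε.ne'
    have x1 : exp (c0 p) * exp ((L : ℂ) - c0 p) = exp (L : ℂ) := by
      rw [← Complex.exp_add]
      congr 1
      ring
    have x2 : exp (-c0 p) * exp (-((L : ℂ) - c0 p)) * exp (L : ℂ) = 1 := by
      rw [← Complex.exp_add, ← Complex.exp_add]
      ring_nf
      exact Complex.exp_zero
    have x3 : (((ε * Real.exp L : ℝ)) : ℂ) = (ε : ℂ) * exp (L : ℂ) := by
      push_cast
      ring
    rw [x3]
    have x4 : (ε : ℂ)⁻¹ * (ε : ℂ) = 1 := inv_mul_cancel₀ hεc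
    linear_combination (-(fB ρ i p * (ε : ℂ) * Fk ρ f (k + 1) p (ε * Real.exp L) *
      g ((L : ℂ) - c0 p))) * x1 - ((k : ℂ) * fC ρ i p *
        deriv (fun s => Fk ρ f (k - 1) p s) (ε * Real.exp L) * g ((L : ℂ) - c0 p)) * x2 -
        ((k : ℂ) * fC ρ i p * exp (-c0 p) * exp (-((L : ℂ) - c0 p)) * exp (L : ℂ) *
        deriv (fun s => Fk ρ f (k - 1) p s) (ε * Real.exp L) * g ((L : ℂ) - c0 p)) * x4
  have hcongr : ∫ L in a..b, dzb i (fun x => H x L) p = ∫ L in a..b,
      (fA ρ i p * ((((ε * Real.exp L : ℝ) : ℂ) * deriv (fun s => Fk ρ f k p s) (ε * Real.exp L)) *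
        g ((L : ℂ) - c0 p)) +
      fB ρ i p * (ε * exp (c0 p) * (Fk ρ f (k + 1) p (ε * Real.exp L) *
        (exp ((L : ℂ) - c0 p) * g ((L : ℂ) - c0 p)))) +
      (k : ℂ) * fC ρ i p * ((ε : ℂ)⁻¹ * exp (-c0 p) * ((((ε * Real.exp L : ℝ) : ℂ) *
        deriv (fun s => Fk ρ f (k - 1) p s) (ε * Real.exp L)) *
          (exp (-((L : ℂ) - c0 p)) * g ((L : ℂ) - c0 p)))) +
      (k : ℂ) * fE ρ i p * (Fk ρ f k p (ε * Real.exp L) * g ((L : ℂ) - c0 p)) -
      dzb i c0 p * (Fk ρ f k p (ε * Real.exp L) * deriv g ((L : ℂ) - c0 p))) := by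
    refine intervalIntegral.integral_congr fun L hL => ?_
    rw [uIcc_of_le hab] at hL
    exact hint L hL
  rw [hcongr]
  -- the kernels
  have hgp : Differentiable ℂ (fun y => exp y * g y) := Complex.differentiable_exp.mul hg
  have hgm : Differentiable ℂ (fun y => exp (-y) * g y) :=
    (Complex.differentiable_exp.comp differentiable_neg).mul hg
  have j1 : IntervalIntegrable (fun L : ℝ => fA ρ i p * ((((ε * Real.exp L : ℝ) : ℂ) *
      deriv (fun s => Fk ρ f k p s) (ε * Real.exp L)) * g ((L : ℂ) - c0 p))) volume a b :=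
    (continuousOn_const.mul ((hdcont k).mul (hgc g hg).continuousOn)).intervalIntegrable_of_Icc hab
  have j2 : IntervalIntegrable (fun L : ℝ => fB ρ i p * (ε * exp (c0 p) *
      (Fk ρ f (k + 1) p (ε * Real.exp L) * (exp ((L : ℂ) - c0 p) * g ((L : ℂ) - c0 p)))))
      volume a b :=
    (continuousOn_const.mul (continuousOn_const.mul ((hucont (k + 1)).mul
      (hgc _ hgp).continuousOn))).intervalIntegrable_of_Icc hab
  have j3 : IntervalIntegrable (fun L : ℝ => (k : ℂ) * fC ρ i p * ((ε : ℂ)⁻¹ * exp (-c0 p) *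
      ((((ε * Real.exp L : ℝ) : ℂ) * deriv (fun s => Fk ρ f (k - 1) p s) (ε * Real.exp L)) *
          (exp (-((L : ℂ) - c0 p)) * g ((L : ℂ) - c0 p))))) volume a b :=
    (continuousOn_const.mul (continuousOn_const.mul ((hdcont (k - 1)).mul
      (hgc _ hgm).continuousOn))).intervalIntegrable_of_Icc hab
  have j4 : IntervalIntegrable (fun L : ℝ => (k : ℂ) * fE ρ i p *
      (Fk ρ f k p (ε * Real.exp L) * g ((L : ℂ) - c0 p))) volume a b :=
    (continuousOn_const.mul ((hucont k).mul (hgc g hg).continuousOn)).intervalIntegrable_of_Icc hab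
  have j5 : IntervalIntegrable (fun L : ℝ => dzb i c0 p *
      (Fk ρ f k p (ε * Real.exp L) * deriv g ((L : ℂ) - c0 p))) volume a b :=
    (continuousOn_const.mul ((hucont k).mul
      (hgc _ (hderiv g hg)).continuousOn)).intervalIntegrable_of_Icc hab
  rw [intervalIntegral.integral_sub (((j1.add j2).add j3).add j4) j5,
    intervalIntegral.integral_add ((j1.add j2).add j3) j4,
    intervalIntegral.integral_add (j1.add j2) j3, intervalIntegral.integral_add j1 j2]
  simp only [intervalIntegral.integral_const_mul]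
  rw [parts k g hg, parts (k - 1) (fun y => exp (-y) * g y) hgm]
  -- the right side
  unfold Ik bk bt
  rw [← ha, ← hb]
  have hHint : (∫ L in a..b, H p L) =
    ∫ L in a..b, Fk ρ f k p (ε * Real.exp L) * g ((L : ℂ) - c0 p) := rfl
  have hεc : (ε : ℂ) ≠ 0 := by exact_mod_cast hε.ne'
  rcases Nat.eq_zero_or_pos k with hk | hk
  · subst hk
    simp only [hHint, Nat.cast_zero, zero_mul, pow_zero, pow_one, zero_add, one_mul]
    ring
  · obtain ⟨m, rfl⟩ : ∃ m, k = m + 1 := ⟨k - 1, by omega⟩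
    have x4 : (ε : ℂ)⁻¹ * (ε : ℂ) = 1 := inv_mul_cancel₀ hεc
    simp only [hHint, Nat.add_sub_cancel]
    linear_combination ((ε : ℂ) ^ m * ((m + 1 : ℕ) : ℂ) * fC ρ i p * exp (-c0 p) *
      (Fk ρ f m p (ε * Real.exp b) * (exp (-((b : ℂ) - c0 p)) * g ((b : ℂ) - c0 p)) -
        Fk ρ f m p (ε * Real.exp a) * (exp (-((a : ℂ) - c0 p)) * g ((a : ℂ) - c0 p)) -
        ∫ L in a..b, Fk ρ f m p (ε * Real.exp L) *
          deriv (fun y => exp (-y) * g y) ((L : ℂ) - c0 p))) * x4

end Pool.Agent.AK.H69
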